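import Pool.Agent.Helper46.UC.Defs

/-! # MP_57a173_lc: compact reading (packet CR) -/

set_option linter.unusedSectionVars false
set_option linter.unusedVariables false

noncomputable section

namespace UL.UC.PkCR

open UL UL.UC

/-- Dependent choice with history. -/
theorem exists_rec {α : Type} [Inhabited α] (R : ℕ → (ℕ → α) → α → Prop)
    (hR : ∀ n f g a, (∀ l, l < n → f l = g l) → R n f a → R n g a)
    (hex : ∀ n f, ∃ a, R n f a) : ∃ χ : ℕ → α, ∀ n, R n χ (χ n) := by
  choose nx hnx using hex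
  let S : ℕ → (ℕ → α) := fun n =>
    Nat.rec (fun _ => default) (fun n s => Function.update s n (nx n s)) n
  have hS : ∀ n, S (n + 1) = Function.update (S n) n (nx n (S n)) := fun n => rfl
  have hlt : ∀ n l, l < n → S n l = S (l + 1) l := by
    intro n
    induction n with
    | zero => intro l hl; omega
    | succ n ih =>
      intro l hl
      rcases Nat.lt_succ_iff_lt_or_eq.1 hl with h | h
      · rw [hS, Function.update_of_ne (by omega), ih l h]
      · subst h; rfl
  refine ⟨fun n => S (n + 1) n, fun n => ?_⟩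
  have h1 : S (n + 1) n = nx n (S n) := by rw [hS, Function.update_self]
  show R n (fun n => S (n + 1) n) (S (n + 1) n)
  rw [h1]
  exact hR n (S n) _ _ (fun l hl => hlt n l hl) (hnx n (S n))

variable {I : Type}

open Classical in
/-- An enumeration of a countable set outside of which `f` is the identity. -/
def en (f : Pt I → Pt I) : ℕ → Option I :=
  if h : ∃ e : ℕ → Option I, ∀ z ξ, f z ξ ≠ z ξ → ∃ m, e m = some ξ then h.choose
  else fun _ => none

open Classical in
/-- The finite set of the elements number `< n` of the enumerations for `f l`, `l < n`. -/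
def FF (f : ℕ → Pt I → Pt I) (n : ℕ) : Finset I :=
  (Finset.range n ×ˢ Finset.range n).biUnion fun p => (en (f p.1) p.2).toFinset

open Classical in
/-- The level `n + 1` on `FF f n`. -/
def qq (f : ℕ → Pt I → Pt I) (n : ℕ) : I → ℕ := fun ξ => if ξ ∈ FF f n then n + 1 else 0

theorem mem_FF {f : ℕ → Pt I → Pt I} {n : ℕ} {ξ : I} :
    ξ ∈ FF f n ↔ ∃ l m, l < n ∧ m < n ∧ en (f l) m = some ξ := by
  classical
  unfold FF
  rw [Finset.mem_biUnion]
  constructor
  · rintro ⟨p, hp, h⟩
    rw [Finset.mem_product, Finset.mem_range, Finset.mem_range] at hp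
    rw [Option.mem_toFinset] at h
    exact ⟨p.1, p.2, hp.1, hp.2, h⟩
  · rintro ⟨l, m, hl, hm, h⟩
    refine ⟨(l, m), ?_, ?_⟩
    · rw [Finset.mem_product, Finset.mem_range, Finset.mem_range]; exact ⟨hl, hm⟩
    · rw [Option.mem_toFinset]; exact h

theorem FF_congr {f g : ℕ → Pt I → Pt I} {n : ℕ} (h : ∀ l, l < n → f l = g l) :
    FF f n = FF g n := by
  ext ξ
  rw [mem_FF, mem_FF]
  constructor
  · rintro ⟨l, m, hl, hm, h1⟩; exact ⟨l, m, hl, hm, by rw [← h l hl]; exact h1⟩
  · rintro ⟨l, m, hl, hm, h1⟩; exact ⟨l, m, hl, hm, by rw [h l hl]; exact h1⟩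

theorem FF_mono (f : ℕ → Pt I → Pt I) {n n' : ℕ} (h : n ≤ n') : FF f n ⊆ FF f n' := by
  intro ξ hξ
  rw [mem_FF] at *
  obtain ⟨l, m, hl, hm, h1⟩ := hξ
  exact ⟨l, m, by omega, by omega, h1⟩

theorem qq_congr {f g : ℕ → Pt I → Pt I} {n : ℕ} (h : ∀ l, l < n → f l = g l) :
    qq f n = qq g n := by
  funext ξ
  unfold qq
  rw [FF_congr h]

theorem comps_congr {f g : ℕ → Pt I → Pt I} {n : ℕ} (h : ∀ l, l < n → f l = g l) :
    comps f 0 n = comps g 0 n := by
  induction n with
  | zero => rfl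
  | succ n ih =>
    show comps f 0 n ∘ f (0 + n) = comps g 0 n ∘ g (0 + n)
    rw [ih fun l hl => h l (by omega), h (0 + n) (by omega)]

theorem qq_in {f : ℕ → Pt I → Pt I} {n : ℕ} {ξ : I} (h : ξ ∈ FF f n) : qq f n ξ = n + 1 := by
  simp [qq, h]

theorem qq_out {f : ℕ → Pt I → Pt I} {n : ℕ} {ξ : I} (h : ξ ∉ FF f n) : qq f n ξ = 0 := by
  simp [qq, h]

theorem qq_fin (f : ℕ → Pt I → Pt I) (n : ℕ) : Fin0 (qq f n) := by
  refine (FF f n).finite_toSet.subset fun ξ hξ => ?_
  by_contra hc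
  exact hξ (qq_out hc)

variable [LinearOrder I]

theorem en_spec {f : Pt I → Pt I} (hf : IsM f) {z : Pt I} {ξ : I} (h : f z ξ ≠ z ξ) :
    ∃ m, en f m = some ξ := by
  have hex : ∃ e : ℕ → Option I, ∀ z ξ, f z ξ ≠ z ξ → ∃ m, e m = some ξ := by
    obtain ⟨L, hL⟩ := hf
    obtain ⟨A, hA, hA'⟩ := hL.sup
    have hid : ∀ ξ, ξ ∉ A → ∀ z, f z ξ = z ξ := by
      intro ξ hξ z
      apply Y.ext
      intro i
      have := hL.pre z ξ (i + 1) i (by rw [hA' ξ hξ]; simp)
      rw [← this]
      simp only [hA' ξ hξ]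
      rw [res_get]
    rcases Set.eq_empty_or_nonempty A with h0 | h0
    · exact ⟨fun _ => none, fun z ξ hne => absurd (hid ξ (by rw [h0]; simp) z) hne⟩
    · obtain ⟨e, he⟩ := hA.exists_eq_range h0
      refine ⟨fun m => some (e m), fun z ξ hne => ?_⟩
      have : ξ ∈ A := by
        by_contra hc
        exact hne (hid ξ hc z)
      rw [he] at this
      obtain ⟨m, hm⟩ := this
      exact ⟨m, congrArg some hm⟩
  have e : en f = hex.choose := by
    unfold en
    rw [dif_pos hex]
  rw [e]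
  exact hex.choose_spec z ξ h

theorem comps_isM {f : ℕ → Pt I → Pt I} {n : ℕ} (h : ∀ l, l < n → IsM (f l)) :
    IsM (comps f 0 n) := by
  induction n with
  | zero => exact IsM.id'
  | succ n ih =>
    show IsM (comps f 0 n ∘ f (0 + n))
    exact (ih fun l hl => h l (by omega)).comp (h (0 + n) (by omega))

theorem cr : P_CR := by
  intro hFL I _ _ hPD x hx
  have : Inhabited (Pt I → Pt I) := ⟨id⟩
  -- the sequence of maps
  obtain ⟨χ, hχ⟩ := exists_rec (α := Pt I → Pt I)
    (fun n f a => (∀ l, l < n → IsM (f l)) → Pure (qq f n) a ∧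
      ∀ τ ∈ Cell (qq f n), ∃ s : Str, ∀ z ∈ B τ, res (x (comps f 0 n (a z))) (n + 1) = s)
    (by
      intro n f g a hfg h hg
      have h1 := h fun l hl => by rw [hfg l hl]; exact hg l hl
      rw [qq_congr hfg, comps_congr hfg] at h1
      exact h1)
    (by
      intro n f
      by_cases hf : ∀ l, l < n → IsM (f l)
      · have hc := comps_isM hf
        obtain ⟨a, ha, ha'⟩ := hPD (qq f n) (fun z => x (comps f 0 n z)) (n + 1) (qq_fin f n)
          (fun i => (hx i).comp isLowerSet_univ hc)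
        exact ⟨a, fun _ => ⟨ha, ha'⟩⟩
      · exact ⟨id, fun h => absurd h hf⟩)
  have hM : ∀ n, IsM (χ n) := by
    intro n
    induction n using Nat.strong_induction_on with
    | _ n ih => exact (hχ n ih).1.isM
  have hP : ∀ n, Pure (qq χ n) (χ n) := fun n => (hχ n fun l _ => hM l).1
  have hD : ∀ n, ∀ τ ∈ Cell (qq χ n), ∃ s : Str, ∀ z ∈ B τ,
      res (x (comps χ 0 n (χ n z))) (n + 1) = s := fun n => (hχ n fun l _ => hM l).2
  obtain ⟨ψ, hψ⟩ := hFL I χ (qq χ) hP
    (by
      intro l ξ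
      by_cases h : ξ ∈ FF χ l
      · rw [qq_in h, qq_in (FF_mono χ (Nat.le_succ l) h)]; omega
      · rw [qq_out h]; exact Nat.zero_le _)
    (by
      intro l z ξ hne n
      obtain ⟨m, hm⟩ := en_spec (hM l) hne
      refine ⟨max n (max (l + 1) (m + 1)), ?_⟩
      rw [qq_in (mem_FF.2 ⟨l, m, ?_, ?_, hm⟩)]
      · omega
      · omega
      · omega)
  have hc : ∀ n, ψ 0 = comps χ 0 n ∘ ψ n := by
    intro n
    induction n with
    | zero => rfl
    | succ n ih =>
      show ψ 0 = (comps χ 0 n ∘ χ (0 + n)) ∘ ψ (n + 1)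
      rw [ih, (hψ n).2.1, Nat.zero_add, Function.comp_assoc]
  refine ⟨ψ 0, (hψ 0).1.isM, FF χ, ?_⟩
  intro n z z' hz
  have key : ∀ z, x (ψ 0 z) = x (comps χ 0 n (χ n (ψ (n + 1) z))) := by
    intro z
    rw [hc (n + 1)]
    show x (comps χ 0 n (χ (0 + n) (ψ (n + 1) z))) = _
    rw [Nat.zero_add]
  show x (ψ 0 z) n = x (ψ 0 z') n
  rw [key z, key z']
  have hcell : cell (qq χ n) (ψ (n + 1) z) = cell (qq χ n) (ψ (n + 1) z') := by
    funext ξ
    unfold cell
    by_cases h : ξ ∈ FF χ n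
    · rw [qq_in h]
      have h2 : ξ ∈ FF χ (n + 1) := FF_mono χ (Nat.le_succ n) h
      apply List.ext_getElem (by simp)
      intro i h1 h1'
      have hi : i < n := by
        rw [res_length] at h1; omega
      rw [res_get, res_get]
      have e : ∀ z, (ψ (n + 1) z ξ : ℕ → Bool) i = z ξ i := fun z =>
        (hψ (n + 1)).1.bits (by rw [qq_in h2]; omega)
      rw [e z, e z']
      exact hz ξ h i hi
    · rw [qq_out h]; simp
  obtain ⟨s, hs⟩ := hD n (cell (qq χ n) (ψ (n + 1) z)) (cell_mem _ _)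
  have h1 := hs (ψ (n + 1) z) (mem_cell _ _)
  have h2 := hs (ψ (n + 1) z') (by rw [hcell]; exact mem_cell _ _)
  have h3 := h1.trans h2.symm
  have h4 : ∀ y : ℕ → Bool, (res y (n + 1))[n]? = some (y n) := by
    intro y
    rw [res_succ, List.getElem?_append_right (by simp)]
    simp
  have h5 := congrArg (fun l : Str => l[n]?) h3
  simp only [h4] at h5
  exact Option.some.inj h5

end UL.UC.PkCR
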