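import Pool.Agent.Helper46.UC.Defs

/-! # MP_57a173_lc: the pool of positions (packet KAP) -/

set_option linter.unusedSectionVars false
set_option linter.unusedVariables false

noncomputable section

namespace UL.UC.PkKAP

open UL UL.UC

variable {I : Type} [LinearOrder I]

theorem LC_sum {S : Set I} {ι : Type} (s : Finset ι) {f : ι → Pt I → ℕ} (hf : ∀ i, LC S (f i)) :
    LC S (fun w => ∑ i ∈ s, f i w) := by
  classical
  induction s using Finset.induction_on with
  | empty => simpa using LC.const 0
  | insert a s ha ih =>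
    have h := (hf a).map₂ ih (fun a b => a + b)
    have e : (fun w => ∑ i ∈ insert a s, f i w) = fun w => f a w + ∑ i ∈ s, f i w := by
      funext w
      exact Finset.sum_insert ha
    rw [e]
    exact h

/-- The next position for the history `l`. -/
def nx (c : ℕ → I) (Df : Finset (I × ℕ) → Finset (I × ℕ) → Pt I → ℕ) (j : ℕ) (l : List ℕ)
    (w : Pt I) : ℕ :=
  1 + l.sum + ∑ T ∈ (Finset.range j).powerset, ∑ T' ∈ (Finset.range j).powerset,
    Df (pts c (fun i _ => l.getD i 0) T w) (pts c (fun i _ => l.getD i 0) T' w) w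

/-- The history. -/
def hist (c : ℕ → I) (Df : Finset (I × ℕ) → Finset (I × ℕ) → Pt I → ℕ) :
    ℕ → Pt I → List ℕ
  | 0 => fun _ => []
  | j + 1 => fun w => hist c Df j w ++ [nx c Df j (hist c Df j w) w]

/-- The positions. -/
def kapF (c : ℕ → I) (Df : Finset (I × ℕ) → Finset (I × ℕ) → Pt I → ℕ) (j : ℕ) (w : Pt I) : ℕ :=
  nx c Df j (hist c Df j w) w

section

variable (c : ℕ → I) (Df : Finset (I × ℕ) → Finset (I × ℕ) → Pt I → ℕ)

theorem hist_length (j : ℕ) (w : Pt I) : (hist c Df j w).length = j := by
  induction j with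
  | zero => rfl
  | succ j ih =>
    show (hist c Df j w ++ [_]).length = j + 1
    rw [List.length_append, ih]; rfl

theorem hist_get (j : ℕ) (w : Pt I) (i : ℕ) (hi : i < j) :
    (hist c Df j w).getD i 0 = kapF c Df i w := by
  induction j with
  | zero => omega
  | succ j ih =>
    show (hist c Df j w ++ [kapF c Df j w]).getD i 0 = kapF c Df i w
    rcases Nat.lt_succ_iff_lt_or_eq.1 hi with h | h
    · rw [List.getD_append _ _ _ _ (by rw [hist_length]; exact h)]
      exact ih h
    · subst h
      rw [List.getD_append_right _ _ _ _ (by rw [hist_length]), hist_length]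
      simp

theorem nx_LC {S : Set I} (hD : ∀ q q', LC S (Df q q')) (j : ℕ) (l : List ℕ) :
    LC S (fun w => nx c Df j l w) := by
  have h : LC S (fun w : Pt I => ∑ T ∈ (Finset.range j).powerset,
      ∑ T' ∈ (Finset.range j).powerset,
      Df (pts c (fun i _ => l.getD i 0) T w) (pts c (fun i _ => l.getD i 0) T' w) w) := by
    refine LC_sum _ fun T => LC_sum _ fun T' => ?_
    exact hD (T.image fun i => (c i, l.getD i 0)) (T'.image fun i => (c i, l.getD i 0))
  exact h.map fun a => 1 + l.sum + a

theorem hist_LC {S : Set I} (hD : ∀ q q', LC S (Df q q')) (j : ℕ) :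
    LC S (fun w => hist c Df j w) := by
  induction j with
  | zero => exact LC.const []
  | succ j ih =>
    exact LC.bind (g := fun l w => l ++ [nx c Df j l w]) ih fun l =>
      (nx_LC c Df hD j l).map fun a => l ++ [a]

theorem kap_LC {S : Set I} (hD : ∀ q q', LC S (Df q q')) (j : ℕ) :
    LC S (fun w => kapF c Df j w) :=
  LC.bind (g := fun l w => nx c Df j l w) (hist_LC c Df hD j) fun l => nx_LC c Df hD j l

theorem pts_eq (j : ℕ) (w : Pt I) (T : Finset ℕ) (hT : T ⊆ Finset.range j) :
    pts c (fun i _ => (hist c Df j w).getD i 0) T w = pts c (kapF c Df) T w := by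
  unfold pts
  apply Finset.image_congr
  intro i hi
  have := Finset.mem_range.1 (hT hi)
  show (c i, (hist c Df j w).getD i 0) = (c i, kapF c Df i w)
  rw [hist_get c Df j w i this]

theorem kap_lt (j : ℕ) (w : Pt I) : kapF c Df j w < kapF c Df (j + 1) w := by
  have h : (hist c Df (j + 1) w).sum = (hist c Df j w).sum + kapF c Df j w := by
    show (hist c Df j w ++ [kapF c Df j w]).sum = _
    rw [List.sum_append]; simp
  have h2 : 1 + (hist c Df (j + 1) w).sum ≤ kapF c Df (j + 1) w := Nat.le_add_right _ _
  omega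

theorem Df_lt (w : Pt I) (j : ℕ) (T T' : Finset ℕ) (hT : T ⊆ Finset.range j)
    (hT' : T' ⊆ Finset.range j) :
    Df (pts c (kapF c Df) T w) (pts c (kapF c Df) T' w) w < kapF c Df j w := by
  rw [← pts_eq c Df j w T hT, ← pts_eq c Df j w T' hT']
  have h1 := Finset.single_le_sum (s := (Finset.range j).powerset)
    (f := fun T => ∑ T' ∈ (Finset.range j).powerset,
      Df (pts c (fun i _ => (hist c Df j w).getD i 0) T w)
        (pts c (fun i _ => (hist c Df j w).getD i 0) T' w) w)
    (fun _ _ => Nat.zero_le _) (Finset.mem_powerset.2 hT)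
  have h2 := Finset.single_le_sum (s := (Finset.range j).powerset)
    (f := fun T' => Df (pts c (fun i _ => (hist c Df j w).getD i 0) T w)
        (pts c (fun i _ => (hist c Df j w).getD i 0) T' w) w)
    (fun _ _ => Nat.zero_le _) (Finset.mem_powerset.2 hT')
  have h3 := h2.trans h1
  have h4 : kapF c Df j w = 1 + (hist c Df j w).sum + ∑ T ∈ (Finset.range j).powerset,
      ∑ T' ∈ (Finset.range j).powerset,
      Df (pts c (fun i _ => (hist c Df j w).getD i 0) T w)
        (pts c (fun i _ => (hist c Df j w).getD i 0) T' w) w := rfl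
  rw [h4]
  simp only at h3
  omega

end

theorem kap : P_KAP := by
  intro I _ S c Df hD
  exact ⟨kapF c Df, kap_LC c Df hD, fun w => strictMono_nat_of_lt_succ fun j => kap_lt c Df j w,
    fun w j T T' hT hT' => Df_lt c Df w j T T' hT hT'⟩

end UL.UC.PkKAP
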